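import Pool.Agent.Q175.WS.Basic
import Pool.Agent.H314.CS.Dist

/-! One-dimensional profile functions for the counterexample. -/

set_option autoImplicit false

open MeasureTheory Laplacian InnerProductSpace Filter Topology Set
open scoped ContDiff

namespace Pool.Agent.Q175.SG

/-- smooth step -/
noncomputable def st (s : ℝ) : ℝ := Real.smoothTransition s

lemma st_smooth : ContDiff ℝ ∞ st := Real.smoothTransition.contDiff

lemma st0 {s : ℝ} (h : s ≤ 0) : st s = 0 := Real.smoothTransition.zero_of_nonpos h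
lemma st1 {s : ℝ} (h : 1 ≤ s) : st s = 1 := Real.smoothTransition.one_of_one_le h
lemma st_nonneg (s : ℝ) : 0 ≤ st s := Real.smoothTransition.nonneg _
lemma st_le (s : ℝ) : st s ≤ 1 := Real.smoothTransition.le_one _
lemma st_mono : Monotone st := Real.smoothTransition.monotone

/-- profile of the solution `u` -/
noncomputable def U (s : ℝ) : ℝ := (11 / 10 * st (8 * s - 1) - 1 / 10) * st (3 - 4 * s)

lemma U_smooth : ContDiff ℝ ∞ U := by
  have h := st_smooth
  have h1 : ContDiff ℝ ∞ (fun s : ℝ => st (8 * s - 1)) := h.comp (by fun_prop)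
  have h2 : ContDiff ℝ ∞ (fun s : ℝ => st (3 - 4 * s)) := h.comp (by fun_prop)
  exact ((contDiff_const.mul h1).sub contDiff_const).mul h2

lemma U_center : U 0 = -(1 / 10) := by
  unfold U; rw [st0 (by norm_num), st1 (by norm_num)]; norm_num

lemma U_one {s : ℝ} (h1 : 1 / 4 ≤ s) (h2 : s ≤ 1 / 2) : U s = 1 := by
  unfold U; rw [st1 (by linarith), st1 (by linarith)]; norm_num

lemma U_zero {s : ℝ} (h : 3 / 4 ≤ s) : U s = 0 := by
  unfold U; rw [st0 (s := 3 - 4 * s) (by linarith), mul_zero]

lemma U_ge (s : ℝ) : -(1 / 10) ≤ U s := by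
  unfold U
  have a := st_nonneg (8 * s - 1)
  have b := st_nonneg (3 - 4 * s)
  have c := st_le (3 - 4 * s)
  nlinarith

lemma U_nonneg {s : ℝ} (h : 1 / 4 ≤ s) : 0 ≤ U s := by
  unfold U
  rw [st1 (s := 8 * s - 1) (by linarith)]
  have b := st_nonneg (3 - 4 * s)
  nlinarith

/-- the switch -/
noncomputable def θ (s : ℝ) : ℝ := st (4 * s - 1)

lemma θ_smooth : ContDiff ℝ ∞ θ := st_smooth.comp (by fun_prop)

lemma θ_mono : Monotone θ := fun a b h => st_mono (by linarith)

lemma θ_zero {s : ℝ} (h : s ≤ 1 / 4) : θ s = 0 := st0 (by linarith)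

lemma θ_one {s : ℝ} (h : 1 / 2 ≤ s) : θ s = 1 := st1 (by linarith)

lemma θ_nonneg (s : ℝ) : 0 ≤ θ s := st_nonneg _

lemma dθ_nonneg (s : ℝ) : 0 ≤ deriv θ s := θ_mono.deriv_nonneg

lemma dθ_smooth : ContDiff ℝ ∞ (deriv θ) := (contDiff_infty_iff_deriv.mp θ_smooth).2

lemma dθ_supp {s : ℝ} (h : s < 1 / 4 ∨ 1 / 2 < s) : deriv θ s = 0 := by
  rcases h with h | h
  · have : θ =ᶠ[𝓝 s] fun _ => 0 := by
      filter_upwards [Iio_mem_nhds h] with t ht
      exact θ_zero (le_of_lt ht)
    rw [this.deriv_eq]; simp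
  · have : θ =ᶠ[𝓝 s] fun _ => 1 := by
      filter_upwards [Ioi_mem_nhds h] with t ht
      exact θ_one (le_of_lt ht)
    rw [this.deriv_eq]; simp

lemma dθ_supp' {s : ℝ} (h : deriv θ s ≠ 0) : 1 / 4 ≤ s ∧ s ≤ 1 / 2 := by
  by_contra hcon
  apply h
  apply dθ_supp
  by_contra h2
  push Not at h2
  exact hcon h2

/-- outer cut-off -/
noncomputable def om (s : ℝ) : ℝ := st (6 - 4 * s)

lemma om_smooth : ContDiff ℝ ∞ om := st_smooth.comp (by fun_prop)
lemma om_one {s : ℝ} (h : s ≤ 5 / 4) : om s = 1 := st1 (by linarith)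
lemma om_zero {s : ℝ} (h : 3 / 2 ≤ s) : om s = 0 := st0 (by linarith)

/-- `-R'` -/
noncomputable def k (t : ℝ) : ℝ := θ t * om t * Real.exp (-2 * U t) / t

lemma k_smooth : ContDiff ℝ ∞ k := by
  rw [contDiff_iff_contDiffAt]
  intro s
  rcases lt_or_ge s (1/4) with h | h
  · have h1 : k =ᶠ[𝓝 s] fun _ => 0 := by
      filter_upwards [Iio_mem_nhds h] with t ht
      unfold k
      rw [θ_zero (le_of_lt ht)]; simp
    exact contDiffAt_const.congr_of_eventuallyEq h1
  · have hs : s ≠ 0 := by intro h0; rw [h0] at h; norm_num at h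
    have : ContDiff ℝ ∞ (fun t => θ t * om t * Real.exp (-2 * U t)) :=
      (θ_smooth.mul om_smooth).mul (contDiff_const.mul U_smooth).exp
    exact this.contDiffAt.div contDiffAt_id hs

lemma k_nonneg {t : ℝ} : 0 ≤ k t := by
  rcases le_or_gt t (1/4) with h | h
  · unfold k; rw [θ_zero h]; simp
  · unfold k
    have a := θ_nonneg t
    have b := st_nonneg (6 - 4 * t)
    have c : 0 ≤ om t := b
    have : 0 < t := by linarith
    positivity

lemma k_le {t : ℝ} (h : 1 ≤ t) : k t ≤ 1 := by
  unfold k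
  rw [U_zero (by linarith), θ_one (by linarith)]
  simp only [mul_zero, Real.exp_zero, one_mul, mul_one]
  have : om t ≤ 1 := st_le _
  rw [div_le_one (by linarith)]
  linarith

lemma k_ge {t : ℝ} (h : 3 / 4 ≤ t) (h' : t ≤ 1) : 1 ≤ k t := by
  unfold k
  rw [U_zero h, θ_one (by linarith), om_one (by linarith)]
  simp only [mul_zero, Real.exp_zero, one_mul, mul_one]
  rw [le_div_iff₀ (by linarith)]
  linarith

lemma k_zero {t : ℝ} (h : 3 / 2 ≤ t) : k t = 0 := by
  unfold k; rw [om_zero h]; simp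

lemma k_mul (t : ℝ) : t * k t = θ t * om t * Real.exp (-2 * U t) := by
  by_cases h : t = 0
  · rw [h]
    have : θ 0 = 0 := θ_zero (by norm_num)
    rw [this]; simp
  · unfold k; field_simp

noncomputable def R (s : ℝ) : ℝ := 1 + ∫ t in s..1, k t

lemma R_deriv (s : ℝ) : HasDerivAt R (-k s) s := by
  have h := intervalIntegral.integral_hasDerivAt_left (a := s) (b := 1) (f := k)
    (k_smooth.continuous.intervalIntegrable _ _)
    (k_smooth.continuous.stronglyMeasurableAtFilter _ _) k_smooth.continuous.continuousAt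
  exact h.const_add 1

lemma R_smooth : ContDiff ℝ ∞ R := by
  rw [contDiff_infty_iff_deriv]
  refine ⟨fun s => (R_deriv s).differentiableAt, ?_⟩
  have : deriv R = fun s => -k s := funext fun s => (R_deriv s).deriv
  rw [this]
  exact k_smooth.neg

lemma R_anti : Antitone R := by
  apply antitone_of_deriv_nonpos (fun s => (R_deriv s).differentiableAt)
  intro s
  rw [(R_deriv s).deriv]
  have := k_nonneg (t := s)
  linarith

lemma R_one : R 1 = 1 := by unfold R; simp

lemma R_ge_one {s : ℝ} (h : s ≤ 1) : 1 ≤ R s := by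
  have := R_anti h
  rwa [R_one] at this

lemma R_gt_one {s : ℝ} (h : s < 1) : 1 < R s := by
  have key : ∀ a : ℝ, 3/4 ≤ a → a < 1 → 1 < R a := by
    intro a ha ha1
    have h1 : ∫ _ in a..1, (1:ℝ) ≤ ∫ t in a..1, k t := by
      apply intervalIntegral.integral_mono_on ha1.le (by simp) (k_smooth.continuous.intervalIntegrable _ _)
      intro t ht
      exact k_ge (by linarith [ht.1]) ht.2
    simp at h1
    unfold R
    linarith
  rcases le_or_gt (3/4) s with h1 | h1
  · exact key s h1 h
  · exact lt_of_lt_of_le (key (3/4) le_rfl (by norm_num)) (R_anti h1.le)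

lemma R_center {s : ℝ} (h : s ≤ 3 / 4) : 5 / 4 ≤ R s := by
  have h1 : ∫ _ in (3/4 : ℝ)..1, (1:ℝ) ≤ ∫ t in (3/4 : ℝ)..1, k t := by
    apply intervalIntegral.integral_mono_on (by norm_num) (by simp) (k_smooth.continuous.intervalIntegrable _ _)
    intro t ht
    exact k_ge ht.1 ht.2
  simp at h1
  have h2 := R_anti h
  have h3 : 1 + 1/4 ≤ R (3/4) := by
    unfold R
    linarith
  linarith

lemma R_pos (s : ℝ) : 0 < R s := by
  rcases le_or_gt s 1 with h | h
  · linarith [R_ge_one h]
  · have h32 : 1/2 ≤ R (3/2) := by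
      have h1 : ∫ t in (1 : ℝ)..(3/2), k t ≤ ∫ _ in (1 : ℝ)..(3/2), (1:ℝ) := by
        apply intervalIntegral.integral_mono_on (by norm_num) (k_smooth.continuous.intervalIntegrable _ _) (by simp)
        intro t ht
        exact k_le ht.1
      rw [intervalIntegral.integral_const, smul_eq_mul] at h1
      unfold R
      rw [intervalIntegral.integral_symm]
      norm_num at h1 ⊢
      linarith
    rcases le_or_gt s (3/2) with h2 | h2
    · have := R_anti h2; linarith
    · have h3 : ∫ t in s..(3/2), k t = 0 := by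
        rw [intervalIntegral.integral_congr (g := fun _ => (0:ℝ))]
        · simp
        · intro t ht
          rw [uIcc_of_ge h2.le] at ht
          exact k_zero ht.1
      have h4 : R s = R (3/2) := by
        unfold R
        rw [← intervalIntegral.integral_add_adjacent_intervals (b := 3/2)
          (k_smooth.continuous.intervalIntegrable _ _) (k_smooth.continuous.intervalIntegrable _ _), h3, zero_add]
      rw [h4]; linarith

/-- profile of `u₀ - u` -/
noncomputable def P (s : ℝ) : ℝ := Real.log (R s)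

lemma P_smooth : ContDiff ℝ ∞ P := R_smooth.log fun s => (R_pos s).ne'

lemma P_deriv (s : ℝ) : HasDerivAt P (-k s / R s) s := (R_deriv s).log (R_pos s).ne'

lemma P_deriv2 (s : ℝ) : HasDerivAt (fun s => -k s / R s)
    ((-deriv k s * R s - -k s * -k s) / R s ^ 2) s := by
  have hk : HasDerivAt k (deriv k s) s := (k_smooth.differentiable (by simp) s).hasDerivAt
  exact hk.neg.div (R_deriv s) (R_pos s).ne'

/-- the coefficient `c` -/
noncomputable def cs (s : ℝ) : ℝ := 4 * deriv θ s * Real.exp (-2) / R s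

lemma cs_smooth : ContDiff ℝ ∞ cs := by
  unfold cs
  exact ((contDiff_const.mul dθ_smooth).mul contDiff_const).div R_smooth fun s => (R_pos s).ne'

lemma cs_nonneg (s : ℝ) : 0 ≤ cs s := by
  have := dθ_nonneg s
  have := R_pos s
  unfold cs
  positivity

lemma k_id {s : ℝ} (h : s < 5 / 4) :
    k s + s * deriv k s = (deriv θ s - 2 * deriv U s * θ s) * Real.exp (-2 * U s) := by
  have hk : HasDerivAt k (deriv k s) s := (k_smooth.differentiable (by simp) s).hasDerivAt
  have hU : HasDerivAt U (deriv U s) s := (U_smooth.differentiable (by simp) s).hasDerivAt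
  have hθ : HasDerivAt θ (deriv θ s) s := (θ_smooth.differentiable (by simp) s).hasDerivAt
  have h1 := (hasDerivAt_id s).mul hk
  have h2 : HasDerivAt (fun t => θ t * Real.exp (-2 * U t))
      (deriv θ s * Real.exp (-2 * U s) + θ s * (Real.exp (-2 * U s) * (-2 * deriv U s))) s :=
    hθ.mul (hU.const_mul (-2)).exp
  have h3 : (fun t => θ t * Real.exp (-2 * U t)) =ᶠ[𝓝 s] fun t => t * k t := by
    filter_upwards [Iio_mem_nhds h] with t ht
    rw [k_mul, om_one (le_of_lt ht)]; ring
  have h4 := (h2.congr_of_eventuallyEq h3.symm).unique h1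
  simp only [id] at h4
  linarith

/-- the key identity between the two profiles -/
lemma key_id {s : ℝ} (h : s < 5 / 4) :
    4 * s * (-((-deriv k s * R s - -k s * -k s) / R s ^ 2)) + 4 * (k s / R s) - 4 * s * (k s / R s) ^ 2
      + 8 * s * (k s / R s) * deriv U s = cs s * U s := by
  have hR := (R_pos s).ne'
  have h1 := k_id h
  have h2 := k_mul s
  rw [om_one h.le, mul_one] at h2
  have h3 : 4 * s * (-((-deriv k s * R s - -k s * -k s) / R s ^ 2)) + 4 * (k s / R s) - 4 * s * (k s / R s) ^ 2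
      + 8 * s * (k s / R s) * deriv U s = 4 / R s * ((k s + s * deriv k s) + 2 * (s * k s) * deriv U s) := by
    field_simp
    ring
  rw [h3, h1, h2]
  unfold cs
  by_cases h5 : deriv θ s = 0
  · rw [h5]; ring
  · obtain ⟨a, b⟩ := dθ_supp' h5
    rw [U_one a b]
    ring_nf

lemma dθ_pos_exists : ∃ s, 1 / 4 < s ∧ s < 1 / 2 ∧ 0 < deriv θ s := by
  obtain ⟨c, hc, hc2⟩ := exists_deriv_eq_slope θ (show (1/4:ℝ) < 1/2 by norm_num)
    θ_smooth.continuous.continuousOn (fun s _ => (θ_smooth.differentiable (by simp) s).differentiableWithinAt)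
  refine ⟨c, hc.1, hc.2, ?_⟩
  rw [hc2, θ_one le_rfl, θ_zero le_rfl]
  norm_num

lemma sum_nonneg {s : ℝ} (h : s ≤ 1) : 0 ≤ P s + U s := by
  rcases le_or_gt s (1/4) with h1 | h1
  · have h2 := R_center (s := s) (by linarith)
    have h3 : 1 / 5 ≤ P s := by
      unfold P
      have h4 := Real.one_sub_inv_le_log_of_pos (R_pos s)
      have h5 : (R s)⁻¹ ≤ 4 / 5 := by
        rw [inv_le_comm₀ (R_pos s) (by norm_num)]
        norm_num
        linarith
      linarith
    have := U_ge s
    linarith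
  · have h2 : 0 ≤ P s := Real.log_nonneg (R_ge_one h)
    have := U_nonneg h1.le
    linarith

end Pool.Agent.Q175.SG
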