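import Pool.Agent.Q175.SG.Fun

/-! The counterexample in the unit disc. -/

set_option autoImplicit false

open MeasureTheory Laplacian InnerProductSpace Filter Topology Set
open scoped ContDiff

namespace Pool.Agent.Q175.SG

open WS

/-- The Euclidean plane. -/
abbrev E2 : Type := EuclideanSpace ℝ (Fin 2)

/-- `u` (with weak gradient `G`) is a solution of `(P_λ)`. -/
structure IsSolution (Ω : Set E2) (lam : ℝ) (c μ h : E2 → ℝ) (u : E2 → ℝ) (G : E2 → E2) : Prop where
  h10 : IsH10 Ω u G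
  bdd : ∃ M : ℝ, ∀ᵐ x ∂(volume.restrict Ω), |u x| ≤ M
  weak : ∀ (v : E2 → ℝ) (V : E2 → E2), IsH10 Ω v V → (∃ M : ℝ, ∀ᵐ x ∂(volume.restrict Ω), |v x| ≤ M) →
    ∫ x in Ω, inner ℝ (G x) (V x) = lam * (∫ x in Ω, c x * u x * v x) +
      (∫ x in Ω, μ x * ‖G x‖ ^ 2 * v x) + ∫ x in Ω, h x * v x

/-- The first eigenvalue `γ₁` of `-Δφ = γ c φ`: the infimum of the weighted Rayleigh quotient. -/
noncomputable def gamma1 (Ω : Set E2) (c : E2 → ℝ) : ℝ :=
  sInf {r : ℝ | ∃ φ : E2 → ℝ, IsTest Ω φ ∧ (0 < ∫ x in Ω, c x * φ x ^ 2) ∧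
    r = (∫ x in Ω, ‖gradient φ x‖ ^ 2) / ∫ x in Ω, c x * φ x ^ 2}

/-- A pointwise equation gives the weak one. -/
lemma weak_of_pointwise {Ω : Set E2} (hΩ : IsOpen Ω) (hbd : Bornology.IsBounded Ω) {w c h : E2 → ℝ}
    (hw : ContDiff ℝ ∞ w) (hc : Continuous c) (hh : Continuous h) {lam : ℝ}
    (heq : ∀ x ∈ Ω, -Δ w x = lam * (c x * w x) + ‖gradient w x‖ ^ 2 + h x)
    {v : E2 → ℝ} {V : E2 → E2} (hv : IsH10 Ω v V) :
    ∫ x in Ω, inner ℝ (gradient w x) (V x) = lam * (∫ x in Ω, c x * w x * v x) +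
      (∫ x in Ω, 1 * ‖gradient w x‖ ^ 2 * v x) + ∫ x in Ω, h x * v x := by
  have gw := TR.grad_cont (hw.of_le (m := 1) (WithTop.coe_le_coe.mpr le_top))
  have hvi := (H10_integrable hbd hv).1
  have hcomp : IsCompact (closure Ω) := hbd.isCompact_closure
  have hin : ∀ {f : E2 → ℝ}, Continuous f → IntegrableOn (fun x => f x * v x) Ω := by
    intro f hf
    obtain ⟨B, hB⟩ := hcomp.exists_bound_of_continuousOn hf.continuousOn
    refine Integrable.bdd_mul (c := B) hvi hf.aestronglyMeasurable ?_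
    filter_upwards [ae_restrict_mem hΩ.measurableSet] with x hx
    exact hB x (subset_closure hx)
  rw [green_H10 hΩ hbd hw hv, ← integral_neg, ← integral_const_mul, ← integral_add, ← integral_add]
  · refine setIntegral_congr_fun hΩ.measurableSet fun x hx => ?_
    have := heq x hx
    have e : Δ w x = -(lam * (c x * w x) + ‖gradient w x‖ ^ 2 + h x) := by linarith
    change -(v x * Δ w x) = lam * (c x * w x * v x) + 1 * ‖gradient w x‖ ^ 2 * v x + h x * v x
    rw [e]; ring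
  · exact ((hin (hc.mul hw.continuous)).const_mul lam).add (hin (continuous_const.mul (gw.norm.pow 2)))
  · exact hin hh
  · exact (hin (hc.mul hw.continuous)).const_mul lam
  · exact hin (continuous_const.mul (gw.norm.pow 2))

lemma sq_smooth : ContDiff ℝ ∞ (fun x : E2 => ‖x‖ ^ 2) := contDiff_norm_sq ℝ

lemma grad_radial {f f' : ℝ → ℝ} {x : E2} (h : HasDerivAt f (f' (‖x‖ ^ 2)) (‖x‖ ^ 2)) :
    gradient (fun y : E2 => f (‖y‖ ^ 2)) x = (2 * f' (‖x‖ ^ 2)) • x := by
  have hn : HasFDerivAt (fun y : E2 => ‖y‖ ^ 2) (2 • (innerSL ℝ x)) x :=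
    (hasStrictFDerivAt_norm_sq x).hasFDerivAt
  have h1 := h.comp_hasFDerivAt x hn
  have h2 : HasGradientAt (fun y : E2 => f (‖y‖ ^ 2)) ((2 * f' (‖x‖ ^ 2)) • x) x := by
    rw [hasGradientAt_iff_hasFDerivAt]
    refine h1.congr_fderiv ?_
    ext y
    simp
    ring
  exact h2.gradient

/-- the unit disc -/
def Dsk : Set E2 := Metric.ball 0 1

noncomputable def uu (x : E2) : ℝ := U (‖x‖ ^ 2)
noncomputable def rr (x : E2) : ℝ := P (‖x‖ ^ 2)
noncomputable def cc (x : E2) : ℝ := cs (‖x‖ ^ 2)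
noncomputable def hh (x : E2) : ℝ :=
  -Δ uu x + cc x * uu x - ‖gradient uu x‖ ^ 2

lemma uu_smooth : ContDiff ℝ ∞ uu := U_smooth.comp sq_smooth
lemma rr_smooth : ContDiff ℝ ∞ rr := P_smooth.comp sq_smooth
lemma cc_smooth : ContDiff ℝ ∞ cc := cs_smooth.comp sq_smooth

lemma mem_dsk {x : E2} (hx : x ∈ Dsk) : ‖x‖ ^ 2 < 1 := by
  have : ‖x‖ < 1 := by simpa [Dsk] using hx
  have h0 := norm_nonneg x
  nlinarith

lemma laplacian_smooth {w : E2 → ℝ} (hw : ContDiff ℝ ∞ w) : ContDiff ℝ ∞ (Δ w) := by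
  have : Δ w = fun x => ∑ i, fderiv ℝ (fun y => fderiv ℝ w y (stdOrthonormalBasis ℝ E2 i)) x
    (stdOrthonormalBasis ℝ E2 i) := funext fun x => TR.laplacian_sum (hw.of_le (WithTop.coe_le_coe.mpr le_top)) x
  rw [this]
  refine ContDiff.sum fun i _ => ?_
  have h1 : ContDiff ℝ ∞ (fun y => fderiv ℝ w y (stdOrthonormalBasis ℝ E2 i)) :=
    (hw.fderiv_right (m := ∞) (by simp)).clm_apply contDiff_const
  exact (h1.fderiv_right (m := ∞) (by simp)).clm_apply contDiff_const

lemma gradsq_smooth {w : E2 → ℝ} (hw : ContDiff ℝ ∞ w) : ContDiff ℝ ∞ (fun x => ‖gradient w x‖ ^ 2) := by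
  have h1 : ContDiff ℝ ∞ (gradient w) :=
    (toDual ℝ E2).symm.contDiff.comp (hw.fderiv_right (m := ∞) (by simp))
  exact h1.norm_sq ℝ

lemma hh_smooth : ContDiff ℝ ∞ hh :=
  ((laplacian_smooth uu_smooth).neg.add (cc_smooth.mul uu_smooth)).sub (gradsq_smooth uu_smooth)

/-- the equation for `u` -/
lemma eq_u (x : E2) : -Δ uu x = -1 * (cc x * uu x) + ‖gradient uu x‖ ^ 2 + hh x := by
  unfold hh; ring

lemma dU_deriv (s : ℝ) : HasDerivAt (deriv U) (deriv (deriv U) s) s :=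
  (((contDiff_infty_iff_deriv.mp U_smooth).2).differentiable (by simp) s).hasDerivAt

/-- the equation for `u₀` -/
lemma eq_u0 {x : E2} (hx : x ∈ Dsk) :
    -Δ (fun x => rr x + uu x) x = 0 * (cc x * (rr x + uu x)) + ‖gradient (fun x => rr x + uu x) x‖ ^ 2 + hh x := by
  have hs := mem_dsk hx
  have hU : ∀ s, HasDerivAt U (deriv U s) s := fun s => (U_smooth.differentiable (by simp) s).hasDerivAt
  have l1 : Δ uu x = 4 * ‖x‖ ^ 2 * deriv (deriv U) (‖x‖ ^ 2) + 4 * deriv U (‖x‖ ^ 2) := by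
    have := H314.CS.LL.laplacian_comp_normSq (E := E2) (x := x) (U := U) (U' := deriv U) (U'' := deriv (deriv U))
      (Eventually.of_forall hU) (dU_deriv _)
    rw [finrank_euclideanSpace_fin] at this
    change Δ (fun y : E2 => U (‖y‖ ^ 2)) x = _
    rw [this]; push_cast; ring
  have l2 : Δ rr x = 4 * ‖x‖ ^ 2 * ((-deriv k (‖x‖ ^ 2) * R (‖x‖ ^ 2) - -k (‖x‖ ^ 2) * -k (‖x‖ ^ 2)) / R (‖x‖ ^ 2) ^ 2) +
      4 * (-k (‖x‖ ^ 2) / R (‖x‖ ^ 2)) := by
    have := H314.CS.LL.laplacian_comp_normSq (E := E2) (x := x) (U := P) (U' := fun s => -k s / R s)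
      (U'' := fun s => (-deriv k s * R s - -k s * -k s) / R s ^ 2)
      (Eventually.of_forall P_deriv) (P_deriv2 _)
    rw [finrank_euclideanSpace_fin] at this
    change Δ (fun y : E2 => P (‖y‖ ^ 2)) x = _
    rw [this]; push_cast; ring
  have l3 : Δ (fun x => rr x + uu x) x = Δ rr x + Δ uu x :=
    (rr_smooth.contDiffAt.of_le (WithTop.coe_le_coe.mpr le_top)).laplacian_add
      (uu_smooth.contDiffAt.of_le (WithTop.coe_le_coe.mpr le_top))
  have g1 : gradient uu x = (2 * deriv U (‖x‖ ^ 2)) • x := grad_radial (hU _)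
  have g2 : gradient rr x = (2 * (-k (‖x‖ ^ 2) / R (‖x‖ ^ 2))) • x := grad_radial (f' := fun s => -k s / R s) (P_deriv _)
  have g3 : gradient (fun x => rr x + uu x) x = gradient rr x + gradient uu x := gradient_add' rr_smooth uu_smooth x
  rw [l3, g3]
  unfold hh
  rw [l1, l2, g1, g2, ← add_smul, norm_smul, norm_smul, mul_pow, mul_pow, Real.norm_eq_abs, Real.norm_eq_abs,
    sq_abs, sq_abs]
  have hkey := key_id (s := ‖x‖ ^ 2) (by linarith)
  change _ = 0 * (cc x * (rr x + uu x)) + _ + (_ + cs (‖x‖ ^ 2) * U (‖x‖ ^ 2) - _)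
  rw [← hkey]
  ring

lemma uu_test : IsTest Dsk uu := by
  have hsub : tsupport uu ⊆ {x : E2 | ‖x‖ ^ 2 ≤ 3 / 4} := by
    apply closure_minimal
    · intro x hx
      by_contra h
      apply hx
      change ¬ (‖x‖ ^ 2 ≤ 3/4) at h
      exact U_zero (by linarith)
    · exact isClosed_le (continuous_norm.pow 2) continuous_const
  have hsub2 : {x : E2 | ‖x‖ ^ 2 ≤ 3 / 4} ⊆ Dsk := by
    intro x hx
    change ‖x‖ ^ 2 ≤ 3/4 at hx
    have h0 := norm_nonneg x
    simp only [Dsk, mem_ball_zero_iff]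
    nlinarith
  refine ⟨uu_smooth, ?_, hsub.trans hsub2⟩
  exact Metric.isCompact_of_isClosed_isBounded (isClosed_tsupport _)
    (Metric.isBounded_ball.subset (hsub.trans hsub2))

lemma rr_H10 : IsH10 Dsk (Dsk.indicator rr) (Dsk.indicator (gradient rr)) := by
  apply isH10_of_pos Metric.isOpen_ball Metric.isBounded_ball rr_smooth
  · intro x hx
    exact Real.log_pos (R_gt_one (mem_dsk hx))
  · intro x hx
    have hfr : frontier (Metric.ball (0 : E2) 1) = Metric.sphere 0 1 := frontier_ball _ one_ne_zero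
    change x ∈ frontier (Metric.ball (0 : E2) 1) at hx
    rw [hfr, mem_sphere_zero_iff_norm] at hx
    unfold rr P
    rw [hx]
    norm_num [R_one]

/-- `u₀` -/
noncomputable def u0 : E2 → ℝ := Dsk.indicator fun x => rr x + uu x
noncomputable def G0 : E2 → E2 := Dsk.indicator (gradient fun x => rr x + uu x)

lemma u0_H10 : IsH10 Dsk u0 G0 := by
  have h := rr_H10.add (isH10_test uu_test)
  have e1 : (fun x => Dsk.indicator rr x + uu x) = u0 := by
    ext x
    unfold u0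
    by_cases hx : x ∈ Dsk
    · rw [indicator_of_mem hx, indicator_of_mem hx]
    · rw [indicator_of_notMem hx, indicator_of_notMem hx, test_zero uu_test hx, add_zero]
  have e2 : (fun x => Dsk.indicator (gradient rr) x + gradient uu x) = G0 := by
    ext1 x
    unfold G0
    by_cases hx : x ∈ Dsk
    · rw [indicator_of_mem hx, indicator_of_mem hx, gradient_add' rr_smooth uu_smooth]
    · rw [indicator_of_notMem hx, indicator_of_notMem hx, test_grad_zero uu_test hx, add_zero]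
  rwa [e1, e2] at h

lemma bdd_of_cont {w : E2 → ℝ} (hw : Continuous w) : ∃ M : ℝ, ∀ x ∈ Dsk, |w x| ≤ M := by
  obtain ⟨B, hB⟩ := (Metric.isBounded_ball (x := (0 : E2)) (r := 1)).isCompact_closure.exists_bound_of_continuousOn
    hw.continuousOn
  exact ⟨B, fun x hx => hB x (subset_closure hx)⟩

lemma sol_u : IsSolution Dsk (-1) cc (fun _ => 1) hh uu (gradient uu) := by
  refine ⟨isH10_test uu_test, ?_, fun v V hv _ => ?_⟩
  · obtain ⟨M, hM⟩ := bdd_of_cont uu_smooth.continuous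
    refine ⟨M, ?_⟩
    filter_upwards [ae_restrict_mem (Metric.isOpen_ball (x := (0 : E2)) (ε := 1)).measurableSet] with x hx
    exact hM x hx
  · exact weak_of_pointwise Metric.isOpen_ball Metric.isBounded_ball uu_smooth cc_smooth.continuous
      hh_smooth.continuous (fun x _ => eq_u x) hv

lemma sol_u0 : IsSolution Dsk 0 cc (fun _ => 1) hh u0 G0 := by
  have hms : MeasurableSet Dsk := Metric.isOpen_ball.measurableSet
  refine ⟨u0_H10, ?_, fun v V hv _ => ?_⟩
  · obtain ⟨M, hM⟩ := bdd_of_cont (rr_smooth.add uu_smooth).continuous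
    refine ⟨M, ?_⟩
    filter_upwards [ae_restrict_mem hms] with x hx
    unfold u0
    rw [indicator_of_mem hx]
    exact hM x hx
  · have h := weak_of_pointwise Metric.isOpen_ball Metric.isBounded_ball (rr_smooth.add uu_smooth) cc_smooth.continuous
      hh_smooth.continuous (lam := 0) (fun x hx => eq_u0 hx) hv
    have e1 : ∫ x in Dsk, inner ℝ (G0 x) (V x) = ∫ x in Dsk, inner ℝ (gradient (fun x => rr x + uu x) x) (V x) :=
      setIntegral_congr_fun hms fun x hx => by simp only [G0]; rw [indicator_of_mem hx]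
    have e2 : ∫ x in Dsk, cc x * u0 x * v x = ∫ x in Dsk, cc x * (rr x + uu x) * v x :=
      setIntegral_congr_fun hms fun x hx => by simp only [u0]; rw [indicator_of_mem hx]
    have e3 : ∫ x in Dsk, 1 * ‖G0 x‖ ^ 2 * v x = ∫ x in Dsk, 1 * ‖gradient (fun x => rr x + uu x) x‖ ^ 2 * v x :=
      setIntegral_congr_fun hms fun x hx => by simp only [G0]; rw [indicator_of_mem hx]
    rw [e1, e2, e3]
    exact h

lemma u0_nonneg (x : E2) : 0 ≤ u0 x := by
  unfold u0
  by_cases hx : x ∈ Dsk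
  · rw [indicator_of_mem hx]
    exact sum_nonneg (mem_dsk hx).le
  · rw [indicator_of_notMem hx]

lemma cu0_pos : 0 < volume {x | x ∈ Dsk ∧ 0 < cc x * u0 x} := by
  obtain ⟨s, hs1, hs2, hs3⟩ := dθ_pos_exists
  have hcont : Continuous fun x => cc x * (rr x + uu x) := cc_smooth.continuous.mul (rr_smooth.add uu_smooth).continuous
  have hopen : IsOpen (Dsk ∩ {x | 0 < cc x * (rr x + uu x)}) :=
    Metric.isOpen_ball.inter (isOpen_lt continuous_const hcont)
  have hsub : Dsk ∩ {x | 0 < cc x * (rr x + uu x)} ⊆ {x | x ∈ Dsk ∧ 0 < cc x * u0 x} := by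
    rintro x ⟨hx, hx2⟩
    refine ⟨hx, ?_⟩
    unfold u0
    rw [indicator_of_mem hx]
    exact hx2
  refine lt_of_lt_of_le (hopen.measure_pos volume ?_) (measure_mono hsub)
  have hs0 : 0 < s := by linarith
  set y : E2 := EuclideanSpace.single 0 (√s) with hy
  have hyn : ‖y‖ ^ 2 = s := by
    simp [hy, Real.sq_sqrt hs0.le]
  refine ⟨y, ?_, ?_⟩
  · simp only [Dsk, mem_ball_zero_iff]
    nlinarith [norm_nonneg y]
  · change 0 < cs (‖y‖ ^ 2) * (P (‖y‖ ^ 2) + U (‖y‖ ^ 2))
    rw [hyn, U_one hs1.le hs2.le]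
    have h1 : 0 < cs s := by
      have := R_pos s
      unfold cs
      positivity
    have h2 : 0 ≤ P s := Real.log_nonneg (R_ge_one (by linarith))
    positivity

lemma gamma_nonneg : (-1 : ℝ) < gamma1 Dsk cc := by
  have : 0 ≤ gamma1 Dsk cc := by
    unfold gamma1
    apply Real.sInf_nonneg
    rintro r ⟨φ, -, h, rfl⟩
    exact div_nonneg (integral_nonneg fun x => by positivity) h.le
  linarith

end Pool.Agent.Q175.SG
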